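import Pool.Agent.X183.PP.Coll

/-!
# Smooth actions of unitary lattices in `SL_n(ℚ_p)`: roots of unity of prime power order

Let `K` be a CM field which contains the roots of unity of order `q ^ a`, `q` a prime, and `v` a prime of
degree one over `p` of its maximal real subfield `F` which splits in `K`; for instance `K = ℚ(ζ_{q^a})`
and `p ≡ 1` modulo `q ^ a`. Let `h = ∑ aᵢ x̄ᵢ xᵢ` be a positive definite form, `aᵢ` positive integers. Then
`Γ = SU(h; O_K[1/v])` is a lattice in `SL_n(ℚ_p)`. We show: let `e = a` for odd `q` and `e = a - 1` for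
`q = 2`, `e ≥ 1`. Let `M` be closed and connected, `q ^ (m + 1)` not a divisor of `χ(M)`, `q` not a divisor
of `n`. If `dim M < 2 (n - 1 - ⌊m / e⌋)`, then every smooth action of `Γ` on `M` kills a matrix which is not
scalar; so it has finite image, and is isometric, by Margulis' normal subgroup theorem (which is taken as a
hypothesis, `Marg Γ`). For `m < e` we have `dim M < 2 (n - 1)`, and this is sharp for the finiteness of the
image: `Γ` acts isometrically and with infinite image on `ℂP^(n-1)`. For instance, let `K = ℚ(i)`,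
`p ≡ 1` modulo `4`, `n` and `χ(M)` odd.

Proof. The diagonal matrices with entries `ζ ^ sᵢ`, `∑ sᵢ = 0`, form a group `A` isomorphic to
`(ℤ/q^a)^(n-1)`. An invariant Morse function (`Pool.Agent.X183.IM`, after helper84's theorem for cyclic
groups) has `χ(M)` critical points, counted with invariant signs; so `A` has an orbit with at most `q ^ m`
points. Let `S` be the stabiliser of such a point. For odd `q` the group `T = S[q]` of the elements of order
`q` or `1` has rank at least `n - 1 - ⌊m / a⌋`, as `|S| ≤ |S[q]| ^ a`. For `q = 2` let `T = (2 S)[2]` be the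
group of the squares of order `2` or `1`; it has rank at least `n - 1 - ⌊m / (a - 1)⌋`, as
`|S| ≤ |S[2]| |2 S|` and `|2 S| ≤ |T| ^ (a - 1)`. In both cases the kernel of a real representation of
dimension `d` has corank at most `d / 2` in `T`, as the spaces on which `T` acts by a nontrivial character
have a complex structure. So a diagonal matrix of order `q` which is not scalar acts trivially.
-/

open scoped Manifold ContDiff

namespace Pool.Agent.Results.MP_d9606f_gt.PrimePowerUnitary

open Pool.Agent.X183.PP Pool.Agent.X183.PZ Pool.Agent.X183.DF Pool.Agent.X183.ZM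

/-- Let `q` be a prime, `a` a natural number, `e = ex q a` (`a` for odd `q` and `a - 1` for `q = 2`),
`e ≥ 1`, `R` a commutative ring with involution, `ζ` a unit of order `q ^ a` in `R`, `n` not divisible by
`q`, `Γ` a group of invertible `n × n` matrices over `R` which contains the diagonal matrices `Dg (dg ζ s)`
with entries `ζ ^ sᵢ`, `∑ sᵢ = 0`. Let `α` be an action of `Γ` on a connected manifold `M` of dimension
`d < 2 (n - 1 - ⌊m / e⌋)` which is `C^∞` and such that `M` is closed and its Euler characteristic is not
divisible by `q ^ (m + 1)`, or which is `C^1` and such that every finite `q`-subgroup of `α(Γ)` has an orbit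
with at most `q ^ m` points. Then there is such a matrix, with `sᵢ ≠ sⱼ` for some `i`, `j`, which acts
trivially; and the image of `α` is finite if `Γ` has Margulis' normal subgroup property. If
`star ζ * ζ = 1`, then the diagonal matrices with entries `ζ ^ sᵢ` belong to the unitary groups of all
diagonal forms with integer coefficients, and their determinant is `1` if `∑ sᵢ = 0`. -/
theorem result (q : ℕ) [hq : Fact q.Prime] (a : ℕ) (he : 1 ≤ ex q a) (R : Type) [CommRing R]
    [StarRing R] (ζ : Rˣ) (hζ : orderOf ζ = q ^ a) (m n d : ℕ) (hqn : ¬ q ∣ n)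
    (hd : d < 2 * (n - 1 - m / ex q a)) :
    (∀ (Γ : Subgroup (Matrix (Fin n) (Fin n) R)ˣ)
        (_ : ∀ s : Fin n → ZMod (q ^ a), ∑ i, s i = 0 → Dg (dg ζ s) ∈ Γ)
        (M : Type) [TopologicalSpace M] [T2Space M] [ConnectedSpace M]
        [ChartedSpace (EuclideanSpace ℝ (Fin d)) M] (α : Γ →* Equiv.Perm M), AdmP q m d α →
        (∃ s : Fin n → ZMod (q ^ a), (∃ i j, s i ≠ s j) ∧
          ∃ h : Dg (dg ζ s) ∈ Γ, α ⟨Dg (dg ζ s), h⟩ = 1) ∧
        (Marg Γ → (Set.range α).Finite)) ∧
    (star (ζ : R) * ζ = 1 → ∀ (c : Fin n → ℤ) (s : Fin n → ZMod (q ^ a)), Dg (dg ζ s) ∈ UG R c ∧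
      (∑ i, s i = 0 → (Dg (dg ζ s) : Matrix (Fin n) (Fin n) R).det = 1)) := by
  exact ⟨fun Γ hΓ M _ _ _ _ α hα => collapse_pow he hζ hqn hΓ hα hd,
    fun hs c s => ⟨dg_unitary hs c s, fun h => dg_det (by rw [← hζ]; exact pow_orderOf_eq_one ζ) h⟩⟩

end Pool.Agent.Results.MP_d9606f_gt.PrimePowerUnitary
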