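import Pool.Agent.X183.UL.Key

/-!
# Smooth actions of unitary lattices in `SL_n(ℚ_p)` on manifolds of small dimension

Let `K` be an imaginary quadratic field in which the prime `p` splits, `R = O_K[1/p]`, and
`h = ∑ aᵢ x̄ᵢ xᵢ` a positive definite form, `aᵢ` positive integers. Then `Γ = SU(h; R)` is a lattice in
`SL_n(ℚ_p)`. Every smooth action of `Γ` with finite image is isometric. We show: if `M` is closed and
connected, `dim M < n - 1`, and `2` does not divide `n χ(M)`, then every smooth action of `Γ` on `M` kills a
matrix which is not scalar; so it has finite image by Margulis' normal subgroup theorem (which is taken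
as a hypothesis, `Marg Γ`). If `K = ℚ(√-3)`, the same is true if `dim M < 2 (n - 1)` and `3` does not divide
`n χ(M)`. In this case the bound is sharp for the finiteness of the image: `Γ` acts isometrically and with
infinite image on `ℂP^(n-1)`. There are versions for closed `M` with `χ(M) ≠ 0`.

Proof. For a prime `q` such that `R` contains a primitive `q`-th root of unity `ζ` (`q = 2`, or `q = 3` if
`K = ℚ(√-3)`) the diagonal matrices with entries `ζ ^ sᵢ`, `∑ sᵢ = 0`, form an elementary abelian `q`-group
of rank `n - 1` in `Γ`. An invariant Morse function (`Pool.Agent.X183.IM`, after helper84's theorem for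
cyclic groups) has `χ(M)` critical points, counted with invariant signs; if `q ^ (k + 1)` does not divide
`χ(M)`, the group has an orbit with at most `q ^ k` points. The stabiliser of such a point acts linearly on
the tangent space and faithfully modulo the kernel of the action; the kernel of a real representation
of dimension `d` of an elementary abelian `q`-group of rank `r` has rank at least `r - d / κ`, where `κ = 1`
for `q = 2` and `κ = 2` for odd `q`.
-/

open scoped Manifold ContDiff

namespace Pool.Agent.Results.MP_d9606f_gt.UnitaryLattices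

open Pool.Agent.X183.UL Pool.Agent.X183.PZ Pool.Agent.X183.DF Pool.Agent.X183.ZM

/-- Let `q` be a prime, `κ = kap q` (`1` if `q = 2` and `2` otherwise), `R` a commutative ring with
involution, `ζ` a unit of order `q` in `R`, `Γ` a group of invertible `n × n` matrices over `R` which
contains the diagonal matrices with entries `ζ ^ sᵢ`, `∑ sᵢ = 0`. Let `α` be an action of `Γ` on a
connected manifold `M` of dimension `d` which is `C^∞` and such that `M` is closed and its Euler
characteristic is not divisible by `q ^ (k + 1)`, or which is `C^1` and such that every finite `q`-subgroup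
of `α(Γ)` has an orbit with at most `q ^ k` points. Assume that `d < κ (n - 2 - k)`, or that
`d < κ (n - 1 - k)` and `q` does not divide `n` or `Γ` contains all diagonal matrices with entries
`ζ ^ sᵢ`. Then there is such a matrix, with `sᵢ ≠ sⱼ` for some `i`, `j`, which acts trivially; and the
image of `α` is finite if `Γ` has Margulis' normal subgroup property. If `star ζ * ζ = 1`, then the
diagonal matrices with entries `ζ ^ sᵢ` belong to the unitary groups of all diagonal forms with
integer coefficients, and their determinant is `1` if `∑ sᵢ = 0`. -/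
theorem result (q : ℕ) (hq : q.Prime) (R : Type) [CommRing R] [StarRing R] (ζ : Rˣ)
    (hζ : ζ ^ q = 1) (hζ1 : ζ ≠ 1) (k n d : ℕ) :
    (∀ (Γ : Subgroup (Matrix (Fin n) (Fin n) R)ˣ)
        (_ : ∀ s : Fin n → ZMod q, ∑ i, s i = 0 → Dg (δ ζ s) ∈ Γ)
        (M : Type) [TopologicalSpace M] [T2Space M] [ConnectedSpace M]
        [ChartedSpace (EuclideanSpace ℝ (Fin d)) M] (α : Γ →* Equiv.Perm M), AdmP q k d α →
        ((d < kap q * (n - 1 - k) ∧ (¬ q ∣ n ∨ ∀ s : Fin n → ZMod q, Dg (δ ζ s) ∈ Γ)) ∨
          d < kap q * (n - 2 - k)) →
        (∃ s : Fin n → ZMod q, (∃ i j, s i ≠ s j) ∧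
          ∃ h : Dg (δ ζ s) ∈ Γ, α ⟨Dg (δ ζ s), h⟩ = 1) ∧
        (Marg Γ → (Set.range α).Finite)) ∧
    (star (ζ : R) * ζ = 1 → ∀ (a : Fin n → ℤ) (s : Fin n → ZMod q), Dg (δ ζ s) ∈ UG R a ∧
      (∑ i, s i = 0 → (Dg (δ ζ s) : Matrix (Fin n) (Fin n) R).det = 1)) := by
  haveI := Fact.mk hq
  exact ⟨fun Γ hΓ M _ _ _ _ α hα hd => collapse_all hζ hζ1 hΓ hα hd,
    fun hs a s => ⟨Dg_unitary hs a s, fun h => Dg_det hζ h⟩⟩

end Pool.Agent.Results.MP_d9606f_gt.UnitaryLattices
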